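import Pool.Agent.helper75.DP.F3D
import Pool.Agent.helper64.TP.SpecG1
import Pool.Agent.helper64.TP.Basic
/-! # F3D: the revealed blocks determine the crossing event -/

namespace TP

open DP

/-- One direction. -/
theorem F3D_half (hF : F3R_stmt) (hG : BKP_stmt) (N m K : ℕ) (hm : 1 ≤ m) (hK : 1 ≤ K)
    (hKm : K * m < 4 * N) (b b' : V → Bool)
    (h : ∀ v ∈ run (fnext N m K) b (LaF N).card, b v = b' v) (hb : b ∈ fq N) : b' ∈ fq N := by
  classical
  obtain ⟨hR, hn⟩ := hF N m K hm hK hKm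
  obtain ⟨g1, g2, g3, g4, g5⟩ := hG N m K hm hK hKm
  set X := run (fnext N m K) b (LaF N).card with hX
  have hXs : X ⊆ LaF N := F3D_run_sub hR b _
  have hst : fnext N m K X b = ∅ := F3D_stop hR b
  have hbl := F3D_blocks g2 hn b (LaF N).card
  rw [← hX] at hbl
  have h0 : ¬ Disjoint (bk N m K 0) X := by
    intro hd
    unfold fnext at hst
    rw [if_pos hd] at hst
    exact (g1 0 (Nat.zero_le _)).1.ne_empty hst
  have h0' : bk N m K 0 ⊆ X := (hbl 0 (Nat.zero_le _)).resolve_right h0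
  have hno : ¬ ∃ i, 1 ≤ i ∧ i ≤ K ^ 2 ∧ Disjoint (bk N m K i) X ∧ ∃ w v u : V,
      br w ∈ bk N m K i ∧ w ∈ Dq N ∧ Adj v w ∧ u.1 = -(4 * N : ℤ) ∧
        Conn (col b) true (sat X ∩ Dq N) v u := by
    intro hex
    unfold fnext at hst
    rw [if_neg h0, dif_pos hex] at hst
    exact (g1 _ (Nat.find_spec hex).2.1).1.ne_empty hst
  have hLa : ∀ w, w ∈ Dq N → br w ∈ LaF N := fun w hw =>
    Finset.mem_union_right _ (Finset.mem_image_of_mem _ (F3D_mem_DqF.2 hw))
  obtain ⟨u, v, hu, hv, huv⟩ := hb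
  have key : v ∈ sat X ∩ Dq N ∧ Conn (col b) true (sat X ∩ Dq N) v u := by
    refine DP.Con.induct huv (fun w => w ∈ sat X ∩ Dq N ∧ Conn (col b) true (sat X ∩ Dq N) w u) ?_ ?_
    · have hur : u ∈ Dq N := huv.mem_left
      have hu0 : br u ∈ bk N m K 0 := by
        unfold bk
        rw [if_pos rfl, Finset.mem_sdiff]
        refine ⟨hLa u hur, fun hc => ?_⟩
        unfold blkL at hc
        rw [Finset.mem_product, Finset.mem_Icc] at hc
        have h1 := hc.1.1
        have h2 : ((K * m : ℕ) : ℤ) < ((4 * N : ℕ) : ℤ) := by exact_mod_cast hKm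
        push_cast at h2
        rcases br_fst u with h3 | h3 <;> rw [h3, hu] at h1 <;> linarith
      have huX : u ∈ sat X ∩ Dq N := ⟨h0' hu0, hur⟩
      exact ⟨huX, ⟨⟨huX, huv.colour_left⟩, Relation.ReflTransGen.refl⟩⟩
    · rintro a w ha hw haw - ⟨haX, hau⟩
      have hwX : w ∈ sat X ∩ Dq N := by
        refine ⟨?_, hw.1⟩
        by_contra hwX
        obtain ⟨i, hi, hwi⟩ := g3 (br w) (hLa w hw.1)
        have hi1 : 1 ≤ i := by
          rcases Nat.eq_zero_or_pos i with h1 | h1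
          · rw [h1] at hwi
            exact absurd (h0' hwi) hwX
          · exact h1
        have hdis : Disjoint (bk N m K i) X :=
          (hbl i hi).resolve_left fun hs => hwX (hs hwi)
        exact hno ⟨i, hi1, hi, hdis, w, a, u, hwi, hw.1, haw, hu, hau⟩
      exact ⟨hwX, (DP.Con.single (W := {z | z ∈ sat X ∩ Dq N ∧ col b z = true})
        ⟨hwX, hw.2⟩ haw.symm ⟨haX, ha.2⟩).trans hau⟩
  refine ⟨u, v, hu, hv, DP.Con.mono ?_ key.2.symm⟩
  rintro w ⟨hw1, hw2⟩
  refine ⟨hw1.2, ?_⟩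
  rw [← hw2]
  exact (h _ hw1.1).symm

theorem F3D (hF : F3R_stmt) (hG : BKP_stmt) : F3D_stmt := by
  intro N m K hm hK hKm b b' h
  refine ⟨F3D_half hF hG N m K hm hK hKm b b' h, F3D_half hF hG N m K hm hK hKm b' b ?_⟩
  have hR := (hF N m K hm hK hKm).1
  rw [F3D_run_congr hR b b' _ h]
  exact fun v hv => (h v hv).symm

end TP
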