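import Pool.Agent.helper38.DP.FRI
import Pool.Agent.helper64.TP.SpecF
import Pool.Agent.helper64.TP.Basic
set_option autoImplicit false

namespace TP

open DP

/-- The colouring of the inside of `bd x m` which makes the brick of `x` pivotal (only the bricks which
are contained in the inside). -/
def Inn2 (b : V → Bool) (x : V) (m : ℕ) : Prop :=
  ∀ w : V, (w.1 - x.1).natAbs + 1 < m → (w.2 - x.2).natAbs < m → br w ≠ x →
    b (br w) = !decide ((br w).1 = x.1 ∨ (br w).1 = x.1 + 1 ∨ m / 32 < (w.2 - x.2).natAbs)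

def FRI2_stmt : Prop :=
  ∀ (b : V → Bool) (x : V) (m j : ℕ) (gs : ℕ → List V), Even x.1 → Even x.2 → Even m → 64 ≤ m →
    2 * m ≤ 2 ^ j → 10 ≤ j → sd 0 x ≤ 2 ^ j → Std (col b) 4 true x (2 ^ (j + 1)) (Dmark 4 x m) →
    Inn2 b x m →
    (∀ l < 4, (∃ S, Loop (col b) (kol l) (zpt x (2 ^ (j + 1)) l) (2 ^ (j - 5)) S) ∧
      gs l = (List.range (3 * 2 ^ 8 + 1)).map (fun t => zpt x (2 ^ (j + 1) + 2 * t * 2 ^ (j - 9)) l) ∧
      Full (col b) (kol l) (2 ^ (j - 9)) (gs l)) →
        b ∈ Piv {x} (fq (2 ^ j))

/-- Black connection inside. -/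
theorem FRI2_black (b : V → Bool) (x : V) (m : ℕ) (R : Set V) (hx1 : Even x.1) (hx2 : Even x.2)
    (hm64 : 64 ≤ m) (hR : ∀ w, sd x w ≤ m → w ∈ R) (he : b x = true)
    (hI : Inn2 b x m) (p q : V) (hp : sd x p = m) (hpz : sd (zpt x m 0) p ≤ m / 64)
    (hpc : col b p = true) (hq : sd x q = m) (hqz : sd (zpt x m 2) q ≤ m / 64)
    (hqc : col b q = true) : Conn (col b) true R p q := by
  obtain ⟨x1, x2⟩ := x
  obtain ⟨p1, p2⟩ := p
  obtain ⟨q1, q2⟩ := q
  rw [Int.even_iff] at hx1 hx2
  simp only at hx1 hx2
  have hb0 : ∀ X Y : ℤ, (X - x1).natAbs + 1 < m → (Y - x2).natAbs ≤ m / 32 →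
      (X < x1 ∨ x1 + 2 < X ∨ Y = x2) → col b (X, Y) = true := by
    intro X Y h1 h2 h3
    unfold col
    by_cases hE : br (X, Y) = (x1, x2)
    · rw [hE]
      exact he
    · rw [hI (X, Y) h1 (by simp only; omega) hE]
      simp only [Bool.not_eq_eq_eq_not, Bool.not_true, decide_eq_false_iff_not, not_or]
      unfold br at hE ⊢
      simp only at hE ⊢
      split_ifs at hE ⊢ with h5
      · simp only [Prod.mk.injEq, not_and] at hE
        simp only
        refine ⟨?_, ?_, by omega⟩
        · intro h6
          exact hE h6 (by omega)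
        · omega
      · simp only [Prod.mk.injEq, not_and] at hE
        simp only
        refine ⟨?_, ?_, by omega⟩
        · intro h6
          exact hE h6 (by omega)
        · omega
  simp only [zpt, sd] at hp hpz hq hqz
  norm_num at hpz hqz
  have hp1 : p1 = x1 + m := by omega
  have hq1 : q1 = x1 - m := by omega
  subst hp1 hq1
  -- the bricks at distance `m - 1`
  have hpb : col b (x1 + m - 1, p2) = true := by
    have h6 : br (x1 + m - 1, p2) = br (x1 + m, p2) ∨
        br (x1 + m - 1, p2) = br (x1 + m - 2, p2) := by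
      unfold br
      simp only
      by_cases h7 : (x1 + m - 1 + p2) % 2 = 0
      · left
        rw [if_pos h7, if_neg (by omega)]
      · right
        rw [if_neg h7, if_pos (by omega)]
        simp only [Prod.mk.injEq, and_true]
        omega
    rcases h6 with h6 | h6
    · unfold col at hpc ⊢
      rw [h6]
      exact hpc
    · have h8 := hb0 (x1 + m - 2) p2 (by omega) (by omega) (by omega)
      unfold col at h8 ⊢
      rw [h6]
      exact h8
  have hqb : col b (x1 - m + 1, q2) = true := by
    have h6 : br (x1 - m + 1, q2) = br (x1 - m, q2) ∨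
        br (x1 - m + 1, q2) = br (x1 - m + 2, q2) := by
      unfold br
      simp only
      by_cases h7 : (x1 - m + 1 + q2) % 2 = 0
      · right
        rw [if_pos h7, if_neg (by omega)]
        simp only [Prod.mk.injEq, and_true]
        omega
      · left
        rw [if_neg h7, if_pos (by omega)]
        simp only [Prod.mk.injEq, and_true]
        omega
    rcases h6 with h6 | h6
    · unfold col at hqc ⊢
      rw [h6]
      exact hqc
    · have h8 := hb0 (x1 - m + 2) q2 (by omega) (by omega) (by omega)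
      unfold col at h8 ⊢
      rw [h6]
      exact h8
  have hmem : ∀ X Y : ℤ, (X - x1).natAbs ≤ m → (Y - x2).natAbs ≤ m → col b (X, Y) = true →
      (X, Y) ∈ {w | w ∈ R ∧ col b w = true} := by
    intro X Y h1 h2 h3
    exact ⟨hR _ (by unfold sd; simp only; omega), h3⟩
  have c2 : Con {w | w ∈ R ∧ col b w = true} (x1 + m, p2) (x1 + 3, p2) := by
    refine FRI_horiz p2 _ _ fun t h1 h2 => hmem _ _ (by omega) (by omega) ?_
    by_cases ht : t = x1 + m
    · rw [ht]
      exact hpc
    · by_cases ht' : t = x1 + m - 1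
      · rw [ht']
        exact hpb
      · exact hb0 _ _ (by omega) (by omega) (Or.inr (Or.inl (by omega)))
  have c3 : Con {w | w ∈ R ∧ col b w = true} (x1 + 3, p2) (x1 + 3, x2) := by
    refine FRI_vert _ _ _ fun t h1 h2 => hmem _ _ (by omega) (by omega) ?_
    exact hb0 _ _ (by omega) (by omega) (Or.inr (Or.inl (by omega)))
  have c4 : Con {w | w ∈ R ∧ col b w = true} (x1 + 3, x2) (x1 - 1, x2) := by
    refine FRI_horiz _ _ _ fun t h1 h2 => hmem _ _ (by omega) (by omega) ?_
    exact hb0 _ _ (by omega) (by omega) (Or.inr (Or.inr rfl))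
  have d2 : Con {w | w ∈ R ∧ col b w = true} (x1 - m, q2) (x1 - 1, q2) := by
    refine FRI_horiz q2 _ _ fun t h1 h2 => hmem _ _ (by omega) (by omega) ?_
    by_cases ht : t = x1 - m
    · rw [ht]
      exact hqc
    · by_cases ht' : t = x1 - m + 1
      · rw [ht']
        exact hqb
      · exact hb0 _ _ (by omega) (by omega) (Or.inl (by omega))
  have d3 : Con {w | w ∈ R ∧ col b w = true} (x1 - 1, q2) (x1 - 1, x2) := by
    refine FRI_vert _ _ _ fun t h1 h2 => hmem _ _ (by omega) (by omega) ?_
    exact hb0 _ _ (by omega) (by omega) (Or.inl (by omega))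
  exact ((c2.trans c3).trans c4).trans (d2.trans d3).symm

/-- White connection inside. -/
theorem FRI2_white (b : V → Bool) (x : V) (m : ℕ) (R : Set V) (hx1 : Even x.1) (hx2 : Even x.2)
    (hm64 : 64 ≤ m) (hR : ∀ w, sd x w ≤ m → w ∈ R) (he : b x = false)
    (hI : Inn2 b x m) (p q : V) (hp : sd x p = m) (hpz : sd (zpt x m 1) p ≤ m / 64)
    (hpc : col b p = false) (hq : sd x q = m) (hqz : sd (zpt x m 3) q ≤ m / 64)
    (hqc : col b q = false) : Conn (col b) false R p q := by
  obtain ⟨x1, x2⟩ := x
  obtain ⟨p1, p2⟩ := p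
  obtain ⟨q1, q2⟩ := q
  rw [Int.even_iff] at hx1 hx2
  simp only at hx1 hx2
  have hw : ∀ X Y : ℤ, (X - x1).natAbs + 1 < m → (Y - x2).natAbs < m →
      (X = x1 + 1 ∨ m / 32 < (Y - x2).natAbs) → col b (X, Y) = false := by
    intro X Y h1 h2 h3
    unfold col
    by_cases hE : br (X, Y) = (x1, x2)
    · rw [hE]
      exact he
    · rw [hI (X, Y) h1 h2 hE]
      simp only [Bool.not_eq_eq_eq_not, Bool.not_false, decide_eq_true_eq]
      have h4 := br_fst (X, Y)
      simp only at h4
      rcases h3 with h3 | h3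
      · rcases h4 with h4 | h4
        · right; left
          omega
        · left
          omega
      · right; right
        exact h3
  simp only [zpt, sd] at hp hpz hq hqz
  norm_num at hpz hqz
  have hp1 : p2 = x2 + m := by omega
  have hq1 : q2 = x2 - m := by omega
  subst hp1 hq1
  have hmem : ∀ X Y : ℤ, (X - x1).natAbs ≤ m → (Y - x2).natAbs ≤ m → col b (X, Y) = false →
      (X, Y) ∈ {w | w ∈ R ∧ col b w = false} := by
    intro X Y h1 h2 h3
    exact ⟨hR _ (by unfold sd; simp only; omega), h3⟩
  have c1 : Con {w | w ∈ R ∧ col b w = false} (p1, x2 + m) (p1, x2 + m - 1) :=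
    Con.single (hmem _ _ (by omega) (by omega) hpc) (adj_down (p1, x2 + m))
      (hmem _ _ (by omega) (by omega) (hw _ _ (by omega) (by omega) (Or.inr (by omega))))
  have c2 : Con {w | w ∈ R ∧ col b w = false} (p1, x2 + m - 1) (x1 + 1, x2 + m - 1) := by
    refine FRI_horiz _ _ _ fun t h1 h2 => hmem _ _ (by omega) (by omega) ?_
    exact hw _ _ (by omega) (by omega) (Or.inr (by omega))
  have c3 : Con {w | w ∈ R ∧ col b w = false} (x1 + 1, x2 + m - 1) (x1 + 1, x2 - m + 1) := by
    refine FRI_vert _ _ _ fun t h1 h2 => hmem _ _ (by omega) (by omega) ?_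
    exact hw _ _ (by omega) (by omega) (Or.inl rfl)
  have c4 : Con {w | w ∈ R ∧ col b w = false} (x1 + 1, x2 - m + 1) (q1, x2 - m + 1) := by
    refine FRI_horiz _ _ _ fun t h1 h2 => hmem _ _ (by omega) (by omega) ?_
    exact hw _ _ (by omega) (by omega) (Or.inr (by omega))
  have c5 : Con {w | w ∈ R ∧ col b w = false} (q1, x2 - m) (q1, x2 - m + 1) :=
    Con.single (hmem _ _ (by omega) (by omega) hqc) (adj_up (q1, x2 - m))
      (hmem _ _ (by omega) (by omega) (hw _ _ (by omega) (by omega) (Or.inr (by omega))))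
  exact (((c1.trans c2).trans c3).trans c4).trans c5.symm

theorem FRI2 (hLH : LH_stmt) (hLC : LC_stmt) (hCH2 : CH2_stmt) (hRC : RC_stmt) : FRI2_stmt := by
  intro b x m j gs hx1 hx2 hm hm64 hmj hj hx hS hI hL
  obtain ⟨M, hM, hM1⟩ : ∃ M : ℕ, 2 ^ (j - 9) = M ∧ 1 ≤ M := ⟨_, rfl, Nat.one_le_two_pow⟩
  have e0 : 2 ^ j = 512 * M := by
    rw [← hM, show (512 : ℕ) = 2 ^ 9 by norm_num, ← pow_add]; congr 1; omega
  have e1 : 2 ^ (j + 1) = 1024 * M := by rw [pow_succ, e0]; ring
  have e5 : 2 ^ (j - 5) = 16 * M := by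
    rw [← hM, show (16 : ℕ) = 2 ^ 4 by norm_num, ← pow_add]; congr 1; omega
  rw [e0] at hmj hx
  rw [e1] at hS
  have hL' : ∀ l < 4, (∃ S, Loop (col b) (kol l) (zpt x (1024 * M) l) (16 * M) S) ∧
      Full (col b) (kol l) M (FRI_gs x M l) := by
    intro l hl
    obtain ⟨h1, h2, h3⟩ := hL l hl
    rw [e1, e5] at h1
    refine ⟨h1, ?_⟩
    rw [h2, hM, e1] at h3
    exact h3
  rw [e0]
  have e16 : 1024 * M / 64 = 16 * M := by omega
  obtain ⟨hST, hSF⟩ := hS
  rw [e16] at hST hSF
  obtain ⟨p, q, hp, hq, w, w', hw, hw', hcon⟩ := FRI_pair hLH hLC hCH2 (col b) true x M m 0 _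
    (by norm_num) rfl rfl hM1 hx hmj hST (hL' 0 (by norm_num)).1 (hL' 0 (by norm_num)).2
    (hL' 2 (by norm_num)).1 (hL' 2 (by norm_num)).2
  obtain ⟨r, s, hr, hs, y, y', hy, hy', hcon'⟩ := FRI_pair hLH hLC hCH2 (col b) false x M m 1 _
    (by norm_num) rfl rfl hM1 hx hmj hSF (hL' 1 (by norm_num)).1 (hL' 1 (by norm_num)).2
    (hL' 3 (by norm_num)).1 (hL' 3 (by norm_num)).2
  classical
  have hxx := sd_le_iff.1 hx
  simp only [Prod.fst_zero, Prod.snd_zero] at hxx
  push_cast at hxx
  have hR : ∀ w, sd x w ≤ m → w ∈ Dq (512 * M) := by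
    intro w hw
    have h1 := sd_le_iff.1 hw
    simp only [Dq, rect, Set.mem_ofPred_eq]
    push_cast
    omega
  have hdiff : ∀ t : Bool, ∀ v, v ≠ x → Function.update b x t v = b v :=
    fun t v hv => Function.update_of_ne hv _ _
  have hI' : ∀ t : Bool, Inn2 (Function.update b x t) x m := by
    intro t v hv hv1 hv'
    rw [hdiff t (br v) hv']
    exact hI v hv hv1 hv'
  have hmono : ∀ t : Bool, ∀ v, col b v = t → col (Function.update b x t) v = t := by
    intro t v hv
    refine col_mono (fun h => ?_) hv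
    by_cases h1 : br v = x
    · rw [h1]
      exact Function.update_self _ _ _
    · rw [hdiff t (br v) h1]
      exact h
  refine ⟨Function.update b x true, Function.update b x false,
    fun v hv => ⟨hdiff _ v hv, hdiff _ v hv⟩, ?_, ?_⟩
  · -- black crossing
    set b' := Function.update b x true with hb'
    have hmono' : ∀ {u v : V}, Conn (col b) true (Dq (512 * M)) u v →
        Conn (col b') true (Dq (512 * M)) u v := fun h =>
      Conn.colour_mono (fun v _ h => hmono true v h) h
    have hin : Conn (col b') true (Dq (512 * M)) p q := by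
      have hpc : col b p = true := by
        rcases hcon with h | h
        · exact h.1.colour_left
        · exact h.1.colour_left
      have hqc : col b q = true := by
        rcases hcon with h | h
        · exact h.2.colour_left
        · exact h.2.colour_left
      exact FRI2_black b' x m _ hx1 hx2 hm64 hR (Function.update_self _ _ _) (hI' true) p q hp.1
        hp.2 (hmono true p hpc) hq.1 hq.2 (hmono true q hqc)
    have hout : Conn (col b') true (Dq (512 * M)) w' w := by
      rcases hcon with h | h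
      · exact ((hmono' h.2).symm.trans hin.symm).trans (hmono' h.1)
      · exact ((hmono' h.1).symm.trans hin).trans (hmono' h.2)
    show hcross (col b') true _ _ _ _
    refine ⟨w', w, ?_, ?_, hout⟩
    · simp only [FRI_f] at hw'
      norm_num at hw'
      push_cast
      omega
    · simp only [FRI_f] at hw
      norm_num at hw
      push_cast
      omega
  · -- white crossing
    set b' := Function.update b x false with hb'
    have hmono' : ∀ {u v : V}, Conn (col b) false (Dq (512 * M)) u v →
        Conn (col b') false (Dq (512 * M)) u v := fun h =>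
      Conn.colour_mono (fun v _ h => hmono false v h) h
    have hin : Conn (col b') false (Dq (512 * M)) r s := by
      have hpc : col b r = false := by
        rcases hcon' with h | h
        · exact h.1.colour_left
        · exact h.1.colour_left
      have hqc : col b s = false := by
        rcases hcon' with h | h
        · exact h.2.colour_left
        · exact h.2.colour_left
      exact FRI2_white b' x m _ hx1 hx2 hm64 hR (Function.update_self _ _ _) (hI' false) r s hr.1
        hr.2 (hmono false r hpc) hs.1 hs.2 (hmono false s hqc)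
    have hout : Conn (col b') false (Dq (512 * M)) y' y := by
      rcases hcon' with h | h
      · exact ((hmono' h.2).symm.trans hin.symm).trans (hmono' h.1)
      · exact ((hmono' h.1).symm.trans hin).trans (hmono' h.2)
    intro hcr
    obtain ⟨u, v, hu, hv, huv⟩ : hcross (col b') true _ _ _ _ := hcr
    have h1 : y'.2 = -(4 * ((512 * M : ℕ) : ℤ)) := by
      simp only [FRI_f] at hy'
      norm_num at hy'
      push_cast
      omega
    have h2 : y.2 = 4 * ((512 * M : ℕ) : ℤ) := by
      simp only [FRI_f] at hy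
      norm_num at hy
      push_cast
      omega
    obtain ⟨z, hz, hz'⟩ := hRC _ _ _ _ _ _ (fun z hz => hz.1) (fun z hz => hz.1) u v y' y hu hv h1 h2
      huv hout
    have h3 := hz.2
    rw [hz'.2] at h3
    exact absurd h3 (by simp)

end TP
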