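import Pool.Agent.helper38.DP.FRP
import Pool.Agent.helper64.TP.SpecF
import Pool.Agent.helper1.TP.SE1
import Pool.Agent.helper95.TP.FRI2
import Pool.Agent.helper64.TP.Basic
set_option autoImplicit false

/-!
# Project sp (port), FRP: lower bound for pivotality in the square
-/

namespace TP

open DP

open MeasureTheory

/-! ## The cells -/

theorem FRP_BDis (x : V) (M : ℕ) (_hM : 1 ≤ M) :
    BDis (SE1_reg (FRP_all x M true)) (SE1_reg (FRP_all x M false)) := by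
  apply BDis.of_sd
  intro v h1 w h2
  obtain ⟨l, -, hk, r, hr, hr1⟩ := FRP_reg_pos h1
  obtain ⟨l', -, hk', r', hr', hr1'⟩ := FRP_reg_pos h2
  have h3 := (SE1_zpt_diff x r r' l l' (SE1_kol (by rw [hk, hk']; simp))).1
  have h4 := sd_triangle (zpt x r l) v (zpt x r' l')
  have h5 := sd_triangle v w (zpt x r' l')
  rw [sd_comm w] at h5
  omega

theorem FRP_avoid2 (x : V) (M : ℕ) (_hM : 1 ≤ M) (k k' : Bool) (hkk : k' ≠ k) (N : Set V) :
    BDis (HS true x (1024 * M) \ (N ∪ opp 4 (zpt x (1024 * M)) (128 * M) k))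
      (SE1_reg (FRP_all x M k')) := by
  apply BDis.of_sd
  intro v hv w h
  by_contra hvw
  rw [not_le] at hvw
  obtain ⟨l, hl, hk, r, hr, hr1⟩ := FRP_reg_pos h
  obtain ⟨hv1, hv2⟩ := hv
  apply hv2
  refine Or.inr ⟨l, hl, by rw [hk]; exact hkk, ?_⟩
  have h5 := sd_triangle x w (zpt x r l)
  rw [sd_comm w] at h5
  have h6 := SE1_sd_zpt x r l
  have h7 := SE1_zpt_same x (1024 * M) r l
  have h8 := sd_triangle (zpt x (1024 * M) l) (zpt x r l) w
  have h10 := sd_triangle (zpt x (1024 * M) l) w v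
  have h12 := sd_triangle x v w
  rw [sd_comm w v] at h10
  have h1 : sd x v ≤ 1024 * M := hv1
  rw [min_eq_left hr1, max_eq_right hr1] at h7
  omega

/-! ## The inner configuration -/

/-- the inside (sites whose brick is inside for sure) -/
def FRP_in (x : V) (m : ℕ) : Set V := {w | (w.1 - x.1).natAbs + 1 < m ∧ (w.2 - x.2).natAbs < m}

theorem FRP_in_BDis (x : V) (m : ℕ) : BDis (FRP_in x m) {v | m ≤ sd x v} := by
  rintro v ⟨hv1, hv2⟩ w hw he
  have h1 := br_fst v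
  have h2 := br_fst w
  have h3 := br_snd v
  have h4 := br_snd w
  rw [he] at h1 h3
  have h5 : m ≤ max (x.1 - w.1).natAbs (x.2 - w.2).natAbs := hw
  omega

theorem FRP_Inn2_loc (x : V) (m : ℕ) : Loc {b | Inn2 b x m} (FRP_in x m) := by
  refine Loc.of_finite ((box_finite x m).subset fun v hv => ?_) ?_
  · obtain ⟨h1, h2⟩ := hv
    show max (x.1 - v.1).natAbs (x.2 - v.2).natAbs ≤ m
    omega
  · intro b b' hb
    constructor
    · intro h w hw hw1 hw'
      rw [← hb w ⟨hw, hw1⟩]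
      exact h w hw hw1 hw'
    · intro h w hw hw1 hw'
      rw [hb w ⟨hw, hw1⟩]
      exact h w hw hw1 hw'

theorem FRP_Inn2_prob (x : V) (m : ℕ) :
    ((1 : ℝ) / 2) ^ ((2 * m + 1) * (2 * m + 1)) ≤ Pr {b | Inn2 b x m} := by
  classical
  have hP : IsProbabilityMeasure P1 := by unfold P1; infer_instance
  set Λ : Finset V := ((Finset.Icc (x.1 - m) (x.1 + m)) ×ˢ (Finset.Icc (x.2 - m) (x.2 + m)))
    with hΛ
  have h1 : Set.pi (Λ : Set V) (fun w =>
      {!decide (w.1 = x.1 ∨ w.1 = x.1 + 1 ∨ m / 32 < (w.2 - x.2).natAbs)}) ⊆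
      {b : V → Bool | Inn2 b x m} := by
    intro b h w hw hw1 hw'
    have h2 := h (br w) ?_
    · have h3 : b (br w) = !decide ((br w).1 = x.1 ∨ (br w).1 = x.1 + 1 ∨
          m / 32 < ((br w).2 - x.2).natAbs) := h2
      rw [br_snd] at h3
      exact h3
    · rw [Finset.mem_coe, hΛ, Finset.mem_product, Finset.mem_Icc, Finset.mem_Icc, br_snd]
      have h3 := br_fst w
      omega
  have hcard : Λ.card = (2 * m + 1) * (2 * m + 1) := by
    rw [Finset.card_product, Int.card_Icc, Int.card_Icc]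
    congr 1 <;> omega
  have h2 : Pr (Set.pi (Λ : Set V) (fun w =>
      {!decide (w.1 = x.1 ∨ w.1 = x.1 + 1 ∨ m / 32 < (w.2 - x.2).natAbs)})) =
      ((1 : ℝ) / 2) ^ ((2 * m + 1) * (2 * m + 1)) := by
    rw [Pr, P1, measureReal_def, Measure.infinitePi_pi _ (fun i _ => measurableSet_singleton _)]
    simp only [FRP_coin, Finset.prod_const]
    rw [ENNReal.toReal_pow, hcard]
    simp only [one_div, ENNReal.toReal_inv, ENNReal.toReal_ofNat]
  rw [← h2]
  exact measureReal_mono h1 (measure_ne_top _ _)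

theorem FRP (hBOTH : BOTH_stmt) (hLH : LH_stmt) (hLC : LC_stmt) (hCH2 : CH2_stmt)
    (hRC : RC_stmt) (hgen : Bgen_stmt) (hind : Bindep_stmt)
    (hC1 : C1_stmt) (hfkg : Bfkg_stmt) (hsq : Bsq_stmt) (hmono : Bmono_stmt) : FRP_stmt := by
  have hFRI : FRI2_stmt := FRI2 hLH hLC hCH2 hRC
  obtain ⟨CB, hCB, iB, hB⟩ := hBOTH
  obtain ⟨c₀, hc₀, ℓ₀, hℓ₀, hC⟩ := hC1
  have hc₁ : c₀ ≤ 1 := le_trans (hC true (0, 0) ℓ₀ le_rfl) (SE1_Pr_le_one _)
  refine ⟨iB + 10, fun k hk => ?_⟩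
  set m : ℕ := 2 ^ (k - 1) with hm
  set I0 : ℝ := ((1 : ℝ) / 2) ^ ((2 * m + 1) * (2 * m + 1)) with hI0
  have hI0p : 0 < I0 := by positivity
  refine ⟨1 / CB * (c₀ ^ 3080 * c₀ ^ 3080) * I0 ^ 2, by positivity, k + ℓ₀ + 20, ?_⟩
  intro j ρ x hj hρ hx1 hx2 hx
  have hxe : Even (x.1 + x.2) := hx1.add hx2
  obtain ⟨M, hM, hM1⟩ : ∃ M : ℕ, 2 ^ (j - 9) = M ∧ 1 ≤ M := ⟨_, rfl, Nat.one_le_two_pow⟩
  have hMℓ : ℓ₀ ≤ M := by
    have h1 : j - 9 < 2 ^ (j - 9) := Nat.lt_two_pow_self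
    omega
  have e0 : 2 ^ j = 512 * M := by
    rw [← hM, show (512 : ℕ) = 2 ^ 9 by norm_num, ← pow_add]; congr 1; omega
  have e1 : 2 ^ (j + 1) = 1024 * M := by rw [pow_succ, e0]; ring
  have e5 : 2 ^ (j - 5) = 16 * M := by
    rw [← hM, show (16 : ℕ) = 2 ^ 4 by norm_num, ← pow_add]; congr 1; omega
  have hm64 : 64 ≤ m := by
    rw [hm]
    calc 64 = 2 ^ 6 := by norm_num
      _ ≤ 2 ^ (k - 1) := Nat.pow_le_pow_right (by norm_num) (by omega)
  have hme : Even m := by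
    rw [hm, show k - 1 = (k - 2) + 1 by omega, pow_succ]
    exact ⟨2 ^ (k - 2), by ring⟩
  have hmj : 2 * m ≤ 2 ^ j := by
    rw [hm]
    calc 2 * 2 ^ (k - 1) = 2 ^ (k - 1 + 1) := by ring
      _ ≤ 2 ^ j := Nat.pow_le_pow_right (by norm_num) (by omega)
  have hmM : 2 * m ≤ 512 * M := by rw [← e0]; exact hmj
  have hboth := hB 4 ρ x k j (Or.inr rfl) hρ hxe (by omega) (by omega)
  -- the sets
  have hD := FRP_ok x m (512 * M) hmM
  have hSp := SE1_Full_loc true (FRP_all x M true)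
  have hSm := SE1_Full_loc false (FRP_all x M false)
  have hMp := SE1_MrkC_loc (j := 4) (n := 1024 * M) (y := zpt x (1024 * M)) (a := 1024 * M / 64)
    (A := 1024 * M / 8) (k := true) hD
  have hMm := SE1_MrkC_loc (j := 4) (n := 1024 * M) (y := zpt x (1024 * M)) (a := 1024 * M / 64)
    (A := 1024 * M / 8) (k := false) hD
  have e4 : 1024 * M / 8 = 128 * M := by omega
  rw [e4] at hMp hMm
  set Ep : Set (V → Bool) := Ev fun c => MrkC c 4 true x (1024 * M) (Dmark 4 x m) (zpt x (1024 * M))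
    (1024 * M / 64) (128 * M) true with hEp
  set Em : Set (V → Bool) := Ev fun c => MrkC c 4 true x (1024 * M) (Dmark 4 x m) (zpt x (1024 * M))
    (1024 * M / 64) (128 * M) false with hEm
  set Up : Set (V → Bool) := Ev fun c => SE1_Full c true (FRP_all x M true) with hUp
  set Um : Set (V → Bool) := Ev fun c => SE1_Full c false (FRP_all x M false) with hUm
  set Sp := SE1_reg (FRP_all x M true) with hSpdef
  set Sm := SE1_reg (FRP_all x M false) with hSmdef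
  have hout : ∀ (k : Bool) (v : V), v ∈ HS true x (1024 * M) \
      ((Dmark 4 x m).N k ∪ opp 4 (zpt x (1024 * M)) (128 * M) k) → m ≤ sd x v := by
    intro k v hv
    by_contra h
    exact hv.2 (Or.inl (Or.inl (not_le.1 h)))
  have hout' : ∀ k : Bool, HS true x (1024 * M) \
      ((Dmark 4 x m).N k ∪ opp 4 (zpt x (1024 * M)) (128 * M) k) ⊆ {v | m ≤ sd x v} :=
    fun k v hv => hout k v hv
  have hfar : ∀ k : Bool, SE1_reg (FRP_all x M k) ⊆ {v | m ≤ sd x v} := by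
    intro k v hv
    have := FRP_far hv
    show m ≤ sd x v
    omega
  have hinB := FRP_in_BDis x m
  have hI := FRP_Inn2_loc x m
  have key := SE1_gen hgen ρ {b | Inn2 b x m} {b | Inn2 b x m} Ep Em Up Um (FRP_in x m) (FRP_in x m)
    _ _ Sp Sm (FRP_BDis x M hM1)
    (hinB.mono (Set.Subset.refl _) (hfar true)) (hinB.mono (Set.Subset.refl _) (hfar false))
    (hinB.mono (Set.Subset.refl _) (hfar true)) (hinB.mono (Set.Subset.refl _) (hfar false))
    (FRP_avoid2 x M hM1 true false (by simp) _) (FRP_avoid2 x M hM1 false true (by simp) _)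
    hI hI hMp.1 hMm.1 hSp.1 hSm.1 hMp.2 hMm.2 hSp.2 hSm.2
  -- independence of the inner configuration
  have hlocE : Loc (Ep ∩ Em) {v | m ≤ sd x v} := by
    refine (hMp.1.inter hMm.1).mono ?_
    rintro v (hv | hv)
    · exact hout true v hv
    · exact hout false v hv
  have hin := hind ρ {b | Inn2 b x m} {b | Inn2 b x m} (Ep ∩ Em) (Ep ∩ Em)
    (FRP_in x m) {v | m ≤ sd x v} hinB hI hI hlocE hlocE
  have hI2 : I0 ^ 2 ≤ Q ρ {b | Inn2 b x m} {b | Inn2 b x m} :=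
    le_trans (pow_le_pow_left₀ hI0p.le (FRP_Inn2_prob x m) 2) (hsq ρ _ _ hρ hI)
  -- inclusion
  have hincl : {b | Inn2 b x m} ∩ (Ep ∩ Em ∩ (Up ∩ Um)) ⊆ Piv {x} (fq (2 ^ j)) := by
    rintro b ⟨hb5, ⟨hb1, hb2⟩, hb3, hb4⟩
    refine hFRI b x m j (fun l => (List.range (3 * 2 ^ 8 + 1)).map
      (fun t => zpt x (2 ^ (j + 1) + 2 * t * 2 ^ (j - 9)) l)) hx1 hx2 hme hm64 hmj (by omega) hx ?_
      hb5 ?_
    · rw [e1]
      unfold Std Mrk
      rw [e4]
      exact ⟨hb1, hb2⟩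
    · intro l hl
      have hcell : ∀ a ∈ FRP_cells x M l, ∃ S, Loop (col b) (kol l) a.1 a.2 S := by
        intro a ha
        cases hkl : kol l
        · exact hb4 a (FRP_mem_all hl hkl ha)
        · exact hb3 a (FRP_mem_all hl hkl ha)
      rw [e1, e5]
      refine ⟨hcell _ List.mem_cons_self, rfl, ?_⟩
      intro g hg
      rw [hM] at hg ⊢
      exact hcell (g, M) (List.mem_cons_of_mem _ (List.mem_map.2 ⟨g, hg, rfl⟩))
  have hm3 := hmono ρ _ _ _ _ hincl hincl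
  -- probability of the loops
  have hloops : ∀ k : Bool, ∀ a ∈ FRP_all x M k, c₀ ≤ Pr (Ev fun c => ∃ S, Loop c k a.1 a.2 S) := by
    intro k a ha
    apply hC
    obtain ⟨l, -, -, hal⟩ := FRP_all_mem ha
    rcases FRP_cells_mem hal with rfl | ⟨t, -, rfl⟩
    · simp only
      omega
    · exact hMℓ
  have hP : ∀ k : Bool, c₀ ^ 3080 ≤ Q ρ (Ev fun c => SE1_Full c k (FRP_all x M k))
      (Ev fun c => SE1_Full c k (FRP_all x M k)) := by
    intro k
    have := SE1_Full_prob hfkg hsq c₀ k ρ _ hρ hc₀.le (hloops k)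
    rwa [FRP_length] at this
  have hprod : c₀ ^ 3080 * c₀ ^ 3080 ≤ Q ρ Up Up * Q ρ Um Um :=
    mul_le_mul (hP true) (hP false) (by positivity) (SE1_Q_nonneg _ _ _)
  have hset : (Ev fun c => Std c 4 true x (2 ^ (j + 1)) (Dmark 4 x (2 ^ (k - 1)))) = Ep ∩ Em := by
    rw [e1]
    ext b
    unfold Std Mrk Ev
    rw [e4]
    rfl
  rw [hset] at hboth
  have hq : qa ρ 4 x (2 ^ k) (2 ^ j) / CB ≤ Q ρ (Ep ∩ Em) (Ep ∩ Em) := by
    rw [div_le_iff₀ hCB, mul_comm]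
    exact hboth
  have hq0 : 0 ≤ qa ρ 4 x (2 ^ k) (2 ^ j) := SE1_Q_nonneg _ _ _
  calc 1 / CB * (c₀ ^ 3080 * c₀ ^ 3080) * I0 ^ 2 * qa ρ 4 x (2 ^ k) (2 ^ j)
      = (I0 ^ 2 * (qa ρ 4 x (2 ^ k) (2 ^ j) / CB)) * (c₀ ^ 3080 * c₀ ^ 3080) := by ring
    _ ≤ (Q ρ {b | Inn2 b x m} {b | Inn2 b x m} * Q ρ (Ep ∩ Em) (Ep ∩ Em)) *
        (Q ρ Up Up * Q ρ Um Um) := by
        refine mul_le_mul ?_ hprod (by positivity) ?_
        · exact mul_le_mul hI2 hq (by positivity) (SE1_Q_nonneg _ _ _)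
        · exact mul_nonneg (SE1_Q_nonneg _ _ _) (SE1_Q_nonneg _ _ _)
    _ = Q ρ ({b | Inn2 b x m} ∩ (Ep ∩ Em)) ({b | Inn2 b x m} ∩ (Ep ∩ Em)) *
        (Q ρ Up Up * Q ρ Um Um) := by rw [hin]
    _ ≤ _ := key
    _ ≤ _ := hm3

end TP
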